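import Pool.Agent.UST.RES
import Pool.Agent.UST.FI3
import Pool.Agent.UST.FI5

/-!
# Exponential bounds for the crossing probabilities

`p n c` is the probability that the uniform spanning tree of the square lattice restricted to the
`n × ⌊cn⌋` rectangle has a spanning cluster. For all `n` the value lies between
`(1/2) exp(-π/c)` and `1 - (1/2) exp(-π max(c,1))`, and in the limit it is at most
`2^(-⌊1/c⌋)` and at least `1 - 2^(-⌊c⌋)`. So every limit function decays
exponentially in `1/c` as `c → 0`, with a rate between `log 2` and `π`, and `1` minus the limit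
function decays exponentially in `c` as `c → ∞`, with the same bounds for the rate.
-/

namespace Pool.Agent.Results.MP_2756d0_pr.Exponential

open Pool.Agent.UST

theorem result : ∃ p : ℕ → ℝ → ℝ, IsCrossProb p ∧
    ∀ c : ℝ, 0 < c →
      (∀ n : ℕ, 1 ≤ n → 1 / 2 * Real.exp (-(Real.pi / c)) ≤ p n c ∧
        p n c ≤ 1 - 1 / 2 * Real.exp (-(Real.pi * max c 1))) ∧
      Filter.limsup (fun n : ℕ => p n c) Filter.atTop ≤ (1 / 2) ^ ⌊1 / c⌋₊ ∧
      1 - (1 / 2) ^ ⌊c⌋₊ ≤ Filter.liminf (fun n : ℕ => p n c) Filter.atTop :=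
  ⟨P, isCrossProb_P, fun _ hc => ⟨fun _ hn => ⟨P_lower hn hc, P_upper_all hn hc⟩, P_upper hc,
    P_low hc⟩⟩

end Pool.Agent.Results.MP_2756d0_pr.Exponential
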