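import Pool.Agent.UST.RES
import Pool.Agent.UST.FI6

/-!
# The crossing probabilities as functions of the aspect ratio: Lipschitz and strictly increasing

`p n c` is the probability that the uniform spanning tree of the square lattice restricted to the
`n × ⌊cn⌋` rectangle has a spanning cluster. We show
`0 ≤ p n c' - p n c ≤ (6/c) exp(2π/c) (c' - c + 1/n)` for all `0 < c < c'` and `n ≥ 2`, and the lower
bound `(1/4) exp(-π max(c,1) - 2π/(c'-c))` for the increment as soon as `n (c'-c) ≥ 4`. So
every sequence of sizes has a subsequence along which `p n c` converges for all `c > 0`,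
locally uniformly, to a continuous strictly increasing function, and for the existence of the limit
of `p n c` for all `c` it is enough to have it for a dense set of `c`.
-/

namespace Pool.Agent.Results.MP_2756d0_pr.Increments

open Pool.Agent.UST

theorem result : ∃ p : ℕ → ℝ → ℝ, IsCrossProb p ∧
    ∀ c c' : ℝ, 0 < c → c < c' →
      (∀ n : ℕ, 2 ≤ n → 0 ≤ p n c' - p n c ∧
        p n c' - p n c ≤ 6 / c * Real.exp (2 * Real.pi / c) * (c' - c + 1 / n)) ∧
      (∀ n : ℕ, 4 ≤ (c' - c) * n →
        1 / 4 * Real.exp (-(Real.pi * max c 1 + 2 * Real.pi / (c' - c))) ≤ p n c' - p n c) :=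
  ⟨P, isCrossProb_P, fun _ _ hc h =>
    ⟨fun _ hn => ⟨sub_nonneg.2 (P_mono h.le), P_lip hn hc h.le⟩, fun _ hn => P_incr hc h hn⟩⟩

end Pool.Agent.Results.MP_2756d0_pr.Increments
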