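import Pool.Agent.UST.RES
import Pool.Agent.UST.FI4

/-!
# Reflection law for the rectangle crossing probabilities of the planar uniform spanning tree

`p n c` is the probability that the uniform spanning tree of the square lattice restricted to the
`n × ⌊cn⌋` rectangle has a spanning cluster. For every `c` the sum of `p n c` and of
`p ⌊cn⌋ (1/c)` (the same rectangle up to bounded changes of the sides, crossed in the other
direction) is `1 + O(1/n)`. For `c = 1`: the crossing probability of the square is `1/2 + O(1/n)`.

Proof: exact planar duality (free tree of a box, wired tree of the dual box; free = wired in the
limit) gives `C (a+1) b + C (b+1) a = 1` for the crossing probabilities `C a b` of all rectangles, and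
`C a b - C (a+k) b` is at most a constant times `k/a`: the events that shifted rectangles are crossed
while a longer rectangle is not force disjoint crossings of the middle part, and the number of
disjoint crossings has exponential tails (exploration of the dual clusters of the bottom side, negative
association, an explicit discrete harmonic function).
-/

namespace Pool.Agent.Results.MP_2756d0_pr.Reflection

open Pool.Agent.UST

theorem result : ∃ p : ℕ → ℝ → ℝ, IsCrossProb p ∧
    ∀ c : ℝ, 0 < c → ∃ K : ℝ, ∀ n : ℕ, 1 ≤ n →
      |p n c + p ⌊c * n⌋₊ (1 / c) - 1| ≤ K / n :=
  ⟨P, isCrossProb_P, fun _ hc => P_refl_rate hc⟩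

end Pool.Agent.Results.MP_2756d0_pr.Reflection
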