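import Pool.Agent.UST.CLU

/-!
# Exponential tail of the number of spanning clusters, for the whole-plane tree

For the uniform spanning tree of the square lattice (limit along any sequence of finite connected
subgraphs increasing to the lattice) the number of spanning clusters of the `n × ⌊cn⌋` rectangle is at
least `j + 1` with probability at most `(1 - (1/2) exp(-π max(c,1)))^j`, for all `n`, `c` and `j`.
-/

namespace Pool.Agent.Results.MP_2756d0_pr.SpanTail

open Pool.Agent.UST

theorem result : (∃ H : ℕ → Z2.Subgraph, Exhausts H) ∧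
    ∀ H : ℕ → Z2.Subgraph, Exhausts H → ∀ (n : ℕ) (c : ℝ) (j : ℕ), 1 ≤ n → 0 < c →
      Filter.limsup (fun k => ustProb (H k) fun T => j + 1 ≤ numSpan n ⌊c * n⌋₊ T) Filter.atTop
        ≤ (1 - 1 / 2 * Real.exp (-(Real.pi * max c 1))) ^ j :=
  ⟨exists_exhausts, fun _ hH _ _ j hn hc => span_tail hH hn hc j⟩

end Pool.Agent.Results.MP_2756d0_pr.SpanTail
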